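import Pool.Agent.H12.Flat2

/-! A closed flat pseudo-Riemannian manifold with a parallel nilpotent self-adjoint endomorphism
field and no parallel light-like vector field on any finite cover. -/

open scoped Manifold ContDiff Topology
open Set Filter

namespace Pool.Agent.Results.MP_4926dc_gt.Counter
open Pool.Agent.H12.PR Pool.Agent.H12.Flat

noncomputable def AM : (x : M) → TangentSpace 𝓘(ℝ, E) x →ₗ[ℝ] TangentSpace 𝓘(ℝ, E) x :=
  fun _ => A0

lemma aLoc_AM {e : OpenPartialHomeomorph M E} (he : e ∈ atlas E M) (v : E) {y : E}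
    (hy : y ∈ e.target) : aLoc AM e v y = A0 v := by
  obtain ⟨m, -, hm⟩ := Dp_eq y
  show D e (e.symm y) (A0 (D e.symm y v)) = _
  rw [atlas_symm he, hm, A0_T, ← hm, De_Dp' he hy]

lemma AM_par : ParallelEnd gM AM := by
  intro e he
  refine ⟨fun v => contDiffOn_const.congr fun y hy => aLoc_AM he v hy, fun y hy u v c hc w => ?_⟩
  have h0 : c = 0 := by
    apply G0_nondeg
    intro w
    have := hc w
    rwa [chr_gM he, gLoc_gM he] at this
  have h1 : aLoc AM e v =ᶠ[𝓝 y] fun _ => A0 v := by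
    filter_upwards [e.open_target.mem_nhds hy] with y' hy' using aLoc_AM he v hy'
  rw [chr_gM he, gLoc_gM he, gLoc_gM he, h1.fderiv_eq, aLoc_AM he c hy, h0]
  simp

lemma G0_surj (L : E →L[ℝ] E) (hL : Function.Injective L) (a : E) (h : ∀ w, G0 a (L w) = 0) :
    a = 0 := by
  apply G0_nondeg
  intro v
  obtain ⟨w, rfl⟩ := (LinearMap.injective_iff_surjective (f := (L : E →ₗ[ℝ] E))).mp hL v
  exact h w

variable {N : Type} [TopologicalSpace N] [ChartedSpace E N] [IsManifold 𝓘(ℝ, E) ∞ N]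

/-- local constancy of the flat coordinates of a parallel field -/
lemma loc_const (π : N → M) (hπ : ContMDiff 𝓘(ℝ, E) 𝓘(ℝ, E) ∞ π)
    (hinj : ∀ x, Function.Injective (mfderiv 𝓘(ℝ, E) 𝓘(ℝ, E) π x))
    (V : (x : N) → TangentSpace 𝓘(ℝ, E) x) (hV : ParallelVec (pull gM π) V) (x₀ : N) :
    ∀ᶠ x in 𝓝 x₀, D (chartAt E (π x₀)) (π x) (D π x (V x)) =
      D (chartAt E (π x₀)) (π x₀) (D π x₀ (V x₀)) := by
  have he := chart_mem_atlas E (π x₀)
  have he' := chart_mem_atlas E x₀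
  set e := chartAt E (π x₀)
  set e' := chartAt E x₀
  have hmd : ∀ x, MD π x := fun x => (hπ x).mdifferentiableAt (by simp)
  let U : Set E := e'.target ∩ e'.symm ⁻¹' (π ⁻¹' e.source)
  have hU : IsOpen U :=
    e'.continuousOn_symm.isOpen_inter_preimage e'.open_target
      (e.open_source.preimage hπ.continuous)
  have h0 : e' x₀ ∈ U := ⟨e'.map_source (mem_chart_source E x₀), by
    simp only [mem_preimage]; rw [e'.left_inv (mem_chart_source E x₀)]
    exact mem_chart_source E _⟩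
  let ψ : E → E := e ∘ π ∘ e'.symm
  have hψ : ∀ y ∈ U, ContDiffAt ℝ 2 ψ y := by
    intro y hy
    have a1 : ContMDiffAt 𝓘(ℝ, E) 𝓘(ℝ, E) ∞ e'.symm y :=
      (contMDiffOn_symm_of_mem_maximalAtlas (IsManifold.subset_maximalAtlas he')).contMDiffAt
        (e'.open_target.mem_nhds hy.1)
    have a2 : ContMDiffAt 𝓘(ℝ, E) 𝓘(ℝ, E) ∞ e (π (e'.symm y)) :=
      contMDiffAt_of_mem_maximalAtlas (IsManifold.subset_maximalAtlas he) hy.2
    have a3 := a2.comp y ((hπ _).comp y a1)
    exact (contMDiffAt_iff_contDiffAt.mp a3).of_le (by decide)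
  have hD : ∀ y ∈ U, ∀ u, fderiv ℝ ψ y u =
      D e (π (e'.symm y)) (D π (e'.symm y) (D e'.symm y u)) := by
    intro y hy u
    have a1 : MD e'.symm y := mdifferentiableAt_atlas_symm he' hy.1
    rw [← D_E, D_comp (f := π ∘ e'.symm) (mdifferentiableAt_atlas he hy.2) ((hmd _).comp y a1),
      D_comp (hmd _) a1]
    rfl
  have hDe : ∀ x ∈ e.source, ∃ n : ℤ, ∀ u, (T ^ n) (D e x u) = u := by
    intro x hx
    obtain ⟨m, -, hm⟩ := Dp_eq (e x)
    refine ⟨m 4, fun u => ?_⟩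
    have a1 : p (e x) = x := by rw [← atlas_symm he]; exact e.left_inv hx
    have a2 := De_Dp' he (e.map_source hx) ((T ^ m 4).symm u)
    rw [hm, a1, ContinuousLinearEquiv.apply_symm_apply] at a2
    rw [a2, ContinuousLinearEquiv.apply_symm_apply]
  have hG : ∀ y ∈ U, ∀ u v, gLoc (pull gM π) e' u v y = G0 (fderiv ℝ ψ y u) (fderiv ℝ ψ y v) := by
    intro y hy u v
    obtain ⟨n, hn⟩ := hDe _ hy.2
    rw [hD y hy, hD y hy, ← G0_T n, hn, hn]
    rfl
  have hinv : ∀ y ∈ e'.target, ∀ u, D e'.symm y (D e' (e'.symm y) u) = u := by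
    intro y hy u
    have a1 := (mdifferentiable_of_mem_atlas (I := 𝓘(ℝ, E)) he').symm_comp_deriv
      (e'.map_target hy)
    have a2 := congrArg (fun L : E →L[ℝ] E => L u) a1
    rw [e'.right_inv hy] at a2
    exact a2
  have hinv' : ∀ y ∈ e'.target, ∀ u, D e' (e'.symm y) (D e'.symm y u) = u := by
    intro y hy u
    have a1 := (mdifferentiable_of_mem_atlas (I := 𝓘(ℝ, E)) he').comp_symm_deriv hy
    exact congrArg (fun L : E →L[ℝ] E => L u) a1
  have hI : ∀ y ∈ U, Function.Injective (fderiv ℝ ψ y) := by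
    intro y hy a b hab
    obtain ⟨n, hn⟩ := hDe _ hy.2
    rw [hD y hy, hD y hy] at hab
    have a1 := congrArg (T ^ n) hab
    rw [hn, hn] at a1
    have a2 : D e'.symm y a = D e'.symm y b := hinj _ a1
    rw [← hinv' y hy.1 a, a2, hinv' y hy.1]
  let W : E → E := fun y => fderiv ℝ ψ y (vLoc V e' y)
  have hW : ∀ y ∈ U, HasFDerivAt W (0 : E →L[ℝ] E) y := by
    intro y hy
    have a1 : DifferentiableAt ℝ (fderiv ℝ ψ) y :=
      ((hψ y hy).fderiv_right (m := 1) (by norm_num)).differentiableAt one_ne_zero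
    have a2 : DifferentiableAt ℝ (vLoc V e') y :=
      ((hV e' he').1.contDiffAt (e'.open_target.mem_nhds hy.1)).differentiableAt (by simp)
    have a3 := a1.hasFDerivAt.clm_apply a2.hasFDerivAt
    refine a3.congr_fderiv ?_
    ext1 u
    apply G0_surj _ (hI y hy)
    intro w
    have a4 := (hV e' he').2 y hy.1 u w
    rw [hG y hy, chr_flat _ e' ψ y (hψ y hy) (fun u v => by
      filter_upwards [hU.mem_nhds hy] with y' hy' using hG y' hy' u v)] at a4
    simpa using a4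
  have hWe : ∀ x ∈ e'.source, π x ∈ e.source → W (e' x) = D e (π x) (D π x (V x)) := by
    intro x hx hx'
    have hy : e' x ∈ U := ⟨e'.map_source hx, by
      simp only [mem_preimage]; rwa [e'.left_inv hx]⟩
    have a1 : W (e' x) = D e (π (e'.symm (e' x))) (D π (e'.symm (e' x)) (V (e'.symm (e' x)))) := by
      simp only [W]
      rw [hD _ hy]
      show D e _ (D π _ (D e'.symm (e' x) (D e' (e'.symm (e' x)) _))) = _
      rw [hinv _ hy.1]
    rw [a1, e'.left_inv hx]
  obtain ⟨r, hr, hb⟩ := Metric.isOpen_iff.mp hU _ h0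
  have hc : ∀ y ∈ Metric.ball (e' x₀) r, W y = W (e' x₀) := by
    intro y hy
    refine Metric.isOpen_ball.is_const_of_fderiv_eq_zero (𝕜 := ℝ)
      (convex_ball _ _).isPreconnected
      (fun y hy => (hW y (hb hy)).differentiableAt.differentiableWithinAt)
      (fun y hy => (hW y (hb hy)).fderiv) hy (Metric.mem_ball_self hr)
  have b1 : ∀ᶠ x in 𝓝 x₀, e' x ∈ Metric.ball (e' x₀) r :=
    (e'.continuousAt (mem_chart_source E x₀)).eventually_mem (Metric.ball_mem_nhds _ hr)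
  have b2 : ∀ᶠ x in 𝓝 x₀, π x ∈ e.source :=
    hπ.continuous.continuousAt.eventually_mem (e.open_source.mem_nhds (mem_chart_source E _))
  filter_upwards [b1, b2, e'.open_source.mem_nhds (mem_chart_source E x₀)] with x h1 h2 h3
  rw [← hWe x h3 h2, ← hWe x₀ (mem_chart_source E x₀) (mem_chart_source E _), hc _ h1]

omit [ChartedSpace E N] [IsManifold 𝓘(ℝ, E) ∞ N] in
lemma lift (π : N → M) (hc : IsCoveringMap π) (z₀ : E) (x₀ : N) (hz₀ : p z₀ = π x₀) :
    ∃ q : C(E, N), q z₀ = x₀ ∧ ∀ z, π (q z) = p z := by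
  obtain ⟨q, ⟨hq0, hq⟩, -⟩ := hc.existsUnique_continuousMap_lifts ⟨p, p_cov.continuous⟩ z₀ x₀
    hz₀.symm
  exact ⟨q, hq0, fun z => congrFun hq z⟩

lemma no_null (π : N → M)
    (hc : ∀ z₀ x₀, p z₀ = π x₀ → ∃ q : C(E, N), q z₀ = x₀ ∧ ∀ z, π (q z) = p z) (hfin : ∀ x, (π ⁻¹' {x}).Finite)
    (hπ : ContMDiff 𝓘(ℝ, E) 𝓘(ℝ, E) ∞ π)
    (hinj : ∀ x, Function.Injective (mfderiv 𝓘(ℝ, E) 𝓘(ℝ, E) π x))
    (V : (x : N) → TangentSpace 𝓘(ℝ, E) x) (hV : ParallelVec (pull gM π) V)
    (hn : ∀ x, pull gM π x (V x) (V x) = 0) (x₀ : N) : V x₀ = 0 := by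
  obtain ⟨z₀, hz₀⟩ := p_surj (π x₀)
  obtain ⟨q, hq0, hq'⟩ := hc z₀ x₀ hz₀
  have hex : ∀ z, ∃ w : E, D p z w = D π (q z) (V (q z)) := by
    intro z
    obtain ⟨m, -, hm⟩ := Dp_eq z
    exact ⟨(T ^ m 4).symm _, by rw [hm, ContinuousLinearEquiv.apply_symm_apply]⟩
  choose W hW using hex
  have hlc : IsLocallyConstant W := by
    rw [IsLocallyConstant.iff_eventually_eq]
    intro z
    have he := chart_mem_atlas E (π (q z))
    have hz : p z ∈ (chartAt E (π (q z))).source := by rw [← hq']; exact mem_chart_source E _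
    obtain ⟨m, hm⟩ := locAff he hz
    have a1 := q.continuous.continuousAt.eventually (loc_const π hπ hinj V hV (q z))
    have a2 : ∀ᶠ w in 𝓝 z, p w ∈ (chartAt E (π (q z))).source :=
      p_cov.continuous.continuousAt.eventually_mem ((chartAt E _).open_source.mem_nhds hz)
    filter_upwards [a1, a2, hm.eventuallyEq_nhds] with w h1 h2 h3
    rw [← hW, ← hW] at h1
    have b1 := De_Dp he h2 h3 (W w)
    have b2 := De_Dp he hz hm (W z)
    rw [← hq' w] at b1
    rw [← hq' z] at b2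
    apply (T ^ m 4).injective
    rw [← b1, h1]
    exact b2
  have hcst : ∀ z, W z = W z₀ := fun z => hlc.apply_eq_of_preconnectedSpace z z₀
  let mk : ℤ → Fin 5 → ℤ := fun k => Pi.single 4 k
  have mk4 : ∀ k, mk k 4 = k := fun k => by simp [mk]
  let zs : ℤ → E := fun k => (T ^ mk k 4) z₀ + cst (mk k)
  have hzs : ∀ k, q (zs k) ∈ π ⁻¹' {p z₀} := fun k => by
    rw [mem_preimage, hq']; exact p_smul (el (mk k)) z₀
  obtain ⟨i, -, j, -, hij, h⟩ := infinite_univ.exists_ne_map_eq_of_mapsTo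
    (fun k _ => hzs k) (hfin _)
  have c1 : ∀ k, D p z₀ ((T ^ k).symm (W z₀)) = D π (q (zs k)) (V (q (zs k))) := by
    intro k
    rw [← hW, hcst (zs k), ← Dp_smul (mk k), mk4, ContinuousLinearEquiv.apply_symm_apply]
    simp only [zs, mk4]
  have c2 : (T ^ i).symm (W z₀) = (T ^ j).symm (W z₀) := by
    obtain ⟨m, -, hm⟩ := Dp_eq z₀
    apply (T ^ m 4).injective
    rw [← hm, ← hm, c1, c1, h]
  have c3 : (T ^ (i - j)) (W z₀) = W z₀ := by
    have := congrArg (T ^ i) c2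
    rw [ContinuousLinearEquiv.apply_symm_apply] at this
    rw [sub_eq_add_neg, zpow_add, mul_apply, zpow_neg]
    exact this.symm
  obtain ⟨f0, f1, f2, f3⟩ := fixed _ (sub_ne_zero.mpr hij) _ c3
  have c4 : G0 (W z₀) (W z₀) = 0 := by
    obtain ⟨m, -, hm⟩ := Dp_eq z₀
    rw [← G0_T (m 4), ← hm, hW]
    exact hn (q z₀)
  have c5 : W z₀ = 0 := by
    rw [G0_apply, f0, f1, f2, f3] at c4
    have f4 : W z₀ 4 = 0 := by nlinarith
    ext i; fin_cases i <;> simp [*]
  have c6 := hW z₀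
  rw [c5, map_zero, hq0] at c6
  apply hinj x₀
  rw [map_zero]
  exact c6.symm

section
variable {V : Type} [NormedAddCommGroup V] [NormedSpace ℝ V] {X : Type} [TopologicalSpace X]
  [ChartedSpace V X]

/-- A nonzero, self-adjoint, parallel `(1,1)`-tensor field of square zero. -/
def NilpotentParallel (g : Form V X)
    (A : (x : X) → TangentSpace 𝓘(ℝ, V) x →ₗ[ℝ] TangentSpace 𝓘(ℝ, V) x) : Prop :=
  (∃ x, A x ≠ 0) ∧ (∀ x u v, g x (A x u) v = g x u (A x v)) ∧ ParallelEnd g A ∧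
    ∀ x u, A x (A x u) = 0

/-- Every parallel light-like vector field vanishes identically. -/
def NoNull (g : Form V X) : Prop :=
  ∀ W, ParallelVec g W → (∀ x, g x (W x) (W x) = 0) → ∀ x, W x = 0

/-- A smooth covering map with finite fibres that is a local diffeomorphism. -/
def FiniteCover {Y : Type} [TopologicalSpace Y] [ChartedSpace V Y] (π : Y → X) : Prop :=
  IsCoveringMap π ∧ (∀ x, (π ⁻¹' {x}).Finite) ∧ ContMDiff 𝓘(ℝ, V) 𝓘(ℝ, V) ∞ π ∧
    ∀ y, Function.Bijective (mfderiv 𝓘(ℝ, V) 𝓘(ℝ, V) π y)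

/-- No finite cover carries a nonzero parallel light-like vector field. -/
def NoNullOnCovers (g : Form V X) : Prop :=
  ∀ (Y : Type) [TopologicalSpace Y] [ChartedSpace V Y] [IsManifold 𝓘(ℝ, V) ∞ Y] (π : Y → X),
    FiniteCover (V := V) π → NoNull (pull g π)

end

theorem result : ∃ (n : ℕ) (M : Type) (_ : TopologicalSpace M) (_ : T2Space M)
    (_ : CompactSpace M) (_ : ConnectedSpace M) (_ : ChartedSpace (Fin n → ℝ) M)
    (_ : IsManifold 𝓘(ℝ, Fin n → ℝ) ∞ M) (g : Form (Fin n → ℝ) M),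
    IsMetric g ∧ (∃ A, NilpotentParallel g A) ∧ NoNull g ∧ NoNullOnCovers g := by
  refine ⟨5, M, inferInstance, inferInstance, inferInstance, inferInstance, inferInstance,
    inferInstance, gM, gM_metric, ⟨AM, ⟨p 0, fun h => ?_⟩, fun x u v => ?_, AM_par, fun x u => ?_⟩,
    fun V h1 h2 => ?_, fun N _ _ _ π h => no_null π (lift π h.1) h.2.1 h.2.2.1 fun x => (h.2.2.2 x).1⟩
  · have h1 : A0 (Pi.single 3 1) = 0 := congrArg (fun L : E →ₗ[ℝ] E => L (Pi.single 3 1)) h
    have := congrFun h1 0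
    simp [A0_apply] at this
  · show G0 (A0 u) v = G0 u (A0 v)
    simp [G0_apply, A0_apply]; ring
  · show A0 (A0 u) = 0
    ext i; fin_cases i <;> simp [A0_apply]
  · have hp : pull gM (id : M → M) = gM := by
      funext x
      refine LinearMap.ext fun u => LinearMap.ext fun v => ?_
      simp [pull]
    refine no_null id (fun z x h => ⟨⟨p, p_cov.continuous⟩, h, fun _ => rfl⟩) (fun x => by simp) contMDiff_id
      (fun x => ?_) V (by rwa [hp]) (by rwa [hp])
    rw [mfderiv_id]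
    exact Function.injective_id

end Pool.Agent.Results.MP_4926dc_gt.Counter
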